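import Mathlib

/-! The Heisenberg group over the field with `p` elements. -/

set_option autoImplicit false

open scoped commutatorElement

namespace Pool.Agent.Run7.h128.Int

/-- The Heisenberg group over `ZMod p`. -/
@[ext] structure Heis (p : ℕ) where
  a : ZMod p
  b : ZMod p
  c : ZMod p

namespace Heis

variable {p : ℕ}

instance : Mul (Heis p) := ⟨fun x y => ⟨x.a + y.a, x.b + y.b, x.c + y.c + x.a * y.b⟩⟩
instance : One (Heis p) := ⟨⟨0, 0, 0⟩⟩
instance : Inv (Heis p) := ⟨fun x => ⟨-x.a, -x.b, -x.c + x.a * x.b⟩⟩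

@[simp] theorem mul_a (x y : Heis p) : (x * y).a = x.a + y.a := rfl
@[simp] theorem mul_b (x y : Heis p) : (x * y).b = x.b + y.b := rfl
@[simp] theorem mul_c (x y : Heis p) : (x * y).c = x.c + y.c + x.a * y.b := rfl
@[simp] theorem one_a : (1 : Heis p).a = 0 := rfl
@[simp] theorem one_b : (1 : Heis p).b = 0 := rfl
@[simp] theorem one_c : (1 : Heis p).c = 0 := rfl
@[simp] theorem inv_a (x : Heis p) : (x⁻¹).a = -x.a := rfl
@[simp] theorem inv_b (x : Heis p) : (x⁻¹).b = -x.b := rfl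
@[simp] theorem inv_c (x : Heis p) : (x⁻¹).c = -x.c + x.a * x.b := rfl

instance : Group (Heis p) := Group.ofLeftAxioms
  (fun x y z => by ext <;> simp <;> ring)
  (fun x => by ext <;> simp)
  (fun x => by ext <;> simp)

theorem br (x y : Heis p) : ⁅x, y⁆ = ⟨0, 0, x.a * y.b - y.a * x.b⟩ := by
  rw [commutatorElement_def]
  ext <;> simp <;> ring

theorem br_br (x y z : Heis p) : ⁅⁅x, y⁆, z⁆ = 1 := by
  rw [br, br]
  ext <;> simp

theorem pow_ab (x : Heis p) (n : ℕ) : (x ^ n).a = n * x.a ∧ (x ^ n).b = n * x.b ∧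
    2 * (x ^ n).c = 2 * n * x.c + n * (n - 1) * (x.a * x.b) := by
  induction n with
  | zero => simp
  | succ n ih =>
    obtain ⟨h1, h2, h3⟩ := ih
    rw [pow_succ]
    refine ⟨by rw [mul_a, h1]; push_cast; ring, by rw [mul_b, h2]; push_cast; ring, ?_⟩
    rw [mul_c, mul_add, mul_add, h3, h1]
    push_cast
    ring

theorem pow_p (hp : p.Prime) (h2 : p ≠ 2) (x : Heis p) : x ^ p = 1 := by
  obtain ⟨e1, e2, e3⟩ := pow_ab x p
  have : Fact p.Prime := ⟨hp⟩
  have h0 : (p : ZMod p) = 0 := ZMod.natCast_self p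
  have ht : (2 : ZMod p) ≠ 0 := by
    intro h
    have h' : ((2 : ℕ) : ZMod p) = 0 := by exact_mod_cast h
    rw [ZMod.natCast_eq_zero_iff] at h'
    exact h2 ((Nat.prime_dvd_prime_iff_eq hp Nat.prime_two).1 h')
  ext
  · rw [e1, h0, zero_mul, one_a]
  · rw [e2, h0, zero_mul, one_b]
  · rw [one_c]
    refine (mul_eq_zero.1 ?_).resolve_left ht
    rw [e3, h0]
    ring

theorem ne (hp : p.Prime) : ∃ x y : Heis p, x * y ≠ y * x := by
  have : Fact p.Prime := ⟨hp⟩
  refine ⟨⟨1, 0, 0⟩, ⟨0, 1, 0⟩, fun h => ?_⟩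
  have := congrArg Heis.c h
  simp at this

end Heis

end Pool.Agent.Run7.h128.Int
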