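import Pool.Agent.Run7.h128.Int.Core

/-! The automorphism which inverts `G / G'` and fixes `G'`, and the integral it gives. -/

set_option autoImplicit false

open scoped commutatorElement

namespace Pool.Agent.Run7.h128.Int

universe u

/-- In a group of class at most two and odd prime exponent some automorphism `φ` satisfies
`φ x * x ∈ G'` for all `x`. -/
theorem exists_aut {G : Type u} [Group G] (h : ∀ x y z : G, ⁅⁅x, y⁆, z⁆ = 1)
    {p : ℕ} (hp : p.Prime) (h2 : p ≠ 2) (he : ∀ x : G, x ^ p = 1) :
    ∃ φ : MulAut G, ∀ x : G, ∃ d ∈ commutator G, φ x = d * x⁻¹ := by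
  obtain ⟨k, hk⟩ := hp.odd_of_ne_two h2
  have hk' : ∀ x : G, x ^ (2 * k + 1) = 1 := by rw [← hk]; exact he
  let _ : AddCommGroup G := baer h hk'
  have : Fact p.Prime := ⟨hp⟩
  let _ : Module (ZMod p) G := AddCommGroup.zmodModule (n := p) (fun x => he x)
  have add_def : ∀ x y : G, x + y = x * y * ⁅x, y⁆ ^ k := fun _ _ => rfl
  have neg_def : ∀ x : G, -x = x⁻¹ := fun _ => rfl
  have zero_def : (0 : G) = 1 := rfl
  have hcen := commutator_le_center h
  have add_c : ∀ x d : G, d ∈ Subgroup.center G → x + d = x * d := fun x d hd =>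
    bs_central x hd
  let D₀ : AddSubgroup G :=
    { carrier := commutator G
      add_mem' := by
        intro a b ha hb
        rw [add_c a b (hcen hb)]
        exact (commutator G).mul_mem ha hb
      zero_mem' := (commutator G).one_mem
      neg_mem' := fun {x} hx => (commutator G).inv_mem hx }
  let D : Submodule (ZMod p) G := AddSubgroup.toZModSubmodule p D₀
  have memD : ∀ x : G, x ∈ D ↔ x ∈ commutator G := fun x => Iff.rfl
  obtain ⟨g, hg⟩ := D.subtype.exists_leftInverse_of_injective D.ker_subtype
  let π : G →+ G := (D.subtype.comp g).toAddMonoidHom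
  have pmem : ∀ x, π x ∈ commutator G := fun x => (memD _).1 (g x).2
  have pid : ∀ d ∈ commutator G, π d = d := by
    intro d hd
    exact congrArg (fun f : D →ₗ[ZMod p] D => ((f (⟨d, (memD d).2 hd⟩ : D) : D) : G)) hg
  let f : G → G := fun x => π x + π x + -x
  have f_add : ∀ x y, f (x + y) = f x + f y := by
    intro x y
    show π (x + y) + π (x + y) + -(x + y) = (π x + π x + -x) + (π y + π y + -y)
    rw [map_add]
    abel
  have f_c : ∀ d ∈ commutator G, f d = d := by
    intro d hd
    show π d + π d + -d = d
    rw [pid d hd]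
    abel
  have f_f : ∀ x, f (f x) = x := by
    intro x
    show π (π x + π x + -x) + π (π x + π x + -x) + -(π x + π x + -x) = x
    rw [map_add, map_add, map_neg, pid _ (pmem x)]
    abel
  have f_def : ∀ x, f x = π x * π x * x⁻¹ := by
    intro x
    show π x + π x + -x = _
    have c1 := hcen (pmem x)
    have c2 : π x * π x ∈ Subgroup.center G := (Subgroup.center G).mul_mem c1 c1
    rw [add_c _ _ c1, add_comm, add_c _ _ c2, neg_def]
    exact Subgroup.mem_center_iff.1 c2 _
  have f_br : ∀ x y, ⁅f x, f y⁆ = ⁅x, y⁆ := by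
    intro x y
    have c2 : ∀ x, π x * π x ∈ Subgroup.center G := fun x =>
      (Subgroup.center G).mul_mem (hcen (pmem x)) (hcen (pmem x))
    rw [f_def, f_def, c_mul_left h, c_central_left (c2 x), one_mul, c_mul_right h,
      c_central_right (c2 y), one_mul, c_inv_left h, c_inv_right h, inv_inv]
  have brmem : ∀ x y : G, (⁅x, y⁆ ^ k)⁻¹ ∈ commutator G := fun x y =>
    (commutator G).inv_mem ((commutator G).pow_mem
      (Subgroup.commutator_mem_commutator (Subgroup.mem_top x) (Subgroup.mem_top y)) k)
  have mul_def : ∀ x y : G, x * y = x + y + (⁅x, y⁆ ^ k)⁻¹ := by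
    intro x y
    rw [add_c _ _ (hcen (brmem x y)), add_def, mul_inv_cancel_right]
  have f_mul : ∀ x y : G, f (x * y) = f x * f y := by
    intro x y
    rw [mul_def x y, f_add, f_add, f_c _ (brmem x y), mul_def (f x) (f y), f_br]
  refine ⟨{ toFun := f, invFun := f, left_inv := f_f, right_inv := f_f, map_mul' := f_mul },
    fun x => ⟨π x * π x, (commutator G).mul_mem (pmem x) (pmem x), f_def x⟩⟩

/-- Every group of class at most two and odd prime exponent has an integral. -/
theorem integrable {G : Type u} [Group G] (h : ∀ x y z : G, ⁅⁅x, y⁆, z⁆ = 1)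
    {p : ℕ} (hp : p.Prime) (h2 : p ≠ 2) (he : ∀ x : G, x ^ p = 1) :
    ∃ (H : Type u) (_ : Group H), Nonempty (commutator H ≃* G) := by
  obtain ⟨φ, hφ⟩ := exists_aut h hp h2 he
  let H := G ⋊[zpowersHom (MulAut G) φ] Multiplicative ℤ
  refine ⟨H, inferInstance, ?_⟩
  have hle : commutator H ≤ (SemidirectProduct.inl : G →* H).range := by
    have e : (SemidirectProduct.rightHom : H →* Multiplicative ℤ).ker =
        (SemidirectProduct.inl : G →* H).range := SemidirectProduct.range_inl_eq_ker_rightHom.symm
    rw [← e]
    exact Abelianization.commutator_subset_ker _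
  have hge : (SemidirectProduct.inl : G →* H).range ≤ commutator H := by
    have hc : commutator G ≤ (commutator H).comap (SemidirectProduct.inl : G →* H) := by
      rw [commutator_def G, Subgroup.commutator_le]
      intro x _ y _
      rw [Subgroup.mem_comap, map_commutatorElement]
      exact Subgroup.commutator_mem_commutator (Subgroup.mem_top _) (Subgroup.mem_top _)
    have h1 : ∀ x : G, x ^ 2 ∈ (commutator H).comap (SemidirectProduct.inl : G →* H) := by
      intro x
      obtain ⟨d, hd, hx⟩ := hφ x
      have h3 : (SemidirectProduct.inl (φ x * x⁻¹) : H) ∈ commutator H := by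
        have h4 : (SemidirectProduct.inl (φ x * x⁻¹) : H) =
            ⁅(SemidirectProduct.inr (Multiplicative.ofAdd (1 : ℤ)) : H),
              SemidirectProduct.inl x⁆ := by
          rw [commutatorElement_def, map_mul, map_inv]
          congr 1
          rw [← map_inv, ← SemidirectProduct.inl_aut]
          simp
        rw [h4]
        exact Subgroup.commutator_mem_commutator (Subgroup.mem_top _) (Subgroup.mem_top _)
      have h5 : φ x * x⁻¹ ∈ (commutator H).comap (SemidirectProduct.inl : G →* H) := h3
      have h6 : x ^ 2 = (φ x * x⁻¹)⁻¹ * d := by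
        have hdc : d * x = x * d := (Subgroup.mem_center_iff.1 (commutator_le_center h hd) x).symm
        rw [hx, mul_assoc, mul_inv_rev, mul_inv_rev, inv_inv, pow_two, mul_assoc, inv_mul_cancel,
          mul_one]
      rw [h6]
      exact Subgroup.mul_mem _ (Subgroup.inv_mem _ h5) (hc hd)
    rintro _ ⟨x, rfl⟩
    obtain ⟨k, hk⟩ := hp.odd_of_ne_two h2
    have h7 : x = (x ^ 2) ^ (k + 1) := by
      rw [← pow_mul]
      have : 2 * (k + 1) = p + 1 := by rw [hk]; ring
      rw [this, pow_succ, he, one_mul]
    have h8 := Subgroup.pow_mem _ (h1 x) (k + 1)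
    rw [← h7] at h8
    exact h8
  exact ⟨(MulEquiv.subgroupCongr (le_antisymm hle hge)).trans
    (MonoidHom.ofInjective SemidirectProduct.inl_injective).symm⟩

end Pool.Agent.Run7.h128.Int
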