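import Mathlib

/-! Groups of nilpotency class at most 2 and odd prime exponent are integrable. -/

set_option autoImplicit false

open scoped commutatorElement

namespace Pool.Agent.Run7.h128.Int

universe u

section cls

variable {G : Type u} [Group G] (h : ∀ x y z : G, ⁅⁅x, y⁆, z⁆ = 1)
include h

theorem comm_c (x y z : G) : ⁅x, y⁆ * z = z * ⁅x, y⁆ :=
  commutatorElement_eq_one_iff_mul_comm.1 (h x y z)

theorem c_mem_center (x y : G) : ⁅x, y⁆ ∈ Subgroup.center G :=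
  Subgroup.mem_center_iff.2 fun z => (comm_c h x y z).symm

theorem commutator_le_center : commutator G ≤ Subgroup.center G := by
  rw [commutator_def, Subgroup.commutator_le]
  intro x _ y _
  exact c_mem_center h x y

theorem c_mul_left (x y z : G) : ⁅x * y, z⁆ = ⁅x, z⁆ * ⁅y, z⁆ := by
  have e : ⁅x * y, z⁆ = x * ⁅y, z⁆ * (z * x⁻¹ * z⁻¹) := by
    simp only [commutatorElement_def]; group
  rw [e, ← comm_c h y z x, mul_assoc, comm_c h y z]
  simp only [commutatorElement_def]; group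

theorem c_mul_right (x y z : G) : ⁅x, y * z⁆ = ⁅x, y⁆ * ⁅x, z⁆ := by
  have e : ⁅x, y * z⁆ = (⁅y * z, x⁆)⁻¹ := (commutatorElement_inv _ _).symm
  rw [e, c_mul_left h, mul_inv_rev, commutatorElement_inv, commutatorElement_inv, comm_c h]

theorem c_inv_left (x z : G) : ⁅x⁻¹, z⁆ = ⁅x, z⁆⁻¹ := by
  have e := c_mul_left h x⁻¹ x z
  rw [inv_mul_cancel, commutatorElement_one_left] at e
  exact eq_inv_of_mul_eq_one_left e.symm

theorem c_inv_right (x z : G) : ⁅x, z⁻¹⁆ = ⁅x, z⁆⁻¹ := by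
  have e := c_mul_right h x z⁻¹ z
  rw [inv_mul_cancel, commutatorElement_one_right] at e
  exact eq_inv_of_mul_eq_one_left e.symm

end cls

section central

variable {G : Type u} [Group G]

theorem c_central_left {d : G} (hd : d ∈ Subgroup.center G) (z : G) : ⁅d, z⁆ = 1 :=
  commutatorElement_eq_one_iff_mul_comm.2 ((Subgroup.mem_center_iff.1 hd z).symm)

theorem c_central_right {d : G} (hd : d ∈ Subgroup.center G) (z : G) : ⁅z, d⁆ = 1 :=
  commutatorElement_eq_one_iff_mul_comm.2 (Subgroup.mem_center_iff.1 hd z)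

end central

/-- Baer's sum. -/
def bs {G : Type u} [Group G] (k : ℕ) (x y : G) : G := x * y * ⁅x, y⁆ ^ k

section baer

variable {G : Type u} [Group G] (h : ∀ x y z : G, ⁅⁅x, y⁆, z⁆ = 1)
  {k : ℕ} (hk : ∀ x : G, x ^ (2 * k + 1) = 1)
include h

theorem pow_mem (x y : G) : ⁅x, y⁆ ^ k ∈ Subgroup.center G :=
  Subgroup.pow_mem _ (c_mem_center h x y) _

theorem bs_assoc (x y z : G) : bs k (bs k x y) z = bs k x (bs k y z) := by
  have e1 : ⁅bs k x y, z⁆ = ⁅x, z⁆ * ⁅y, z⁆ := by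
    rw [bs, c_mul_left h, c_mul_left h, c_central_left (pow_mem h x y), mul_one]
  have e2 : ⁅x, bs k y z⁆ = ⁅x, y⁆ * ⁅x, z⁆ := by
    rw [bs, c_mul_right h, c_mul_right h, c_central_right (pow_mem h y z), mul_one]
  have hc : ∀ a b c : G, Commute ⁅a, b⁆ c := fun a b c => comm_c h a b c
  have hp : ∀ a b c : G, Commute (⁅a, b⁆ ^ k) c := fun a b c => (hc a b c).pow_left k
  rw [bs, e1, bs, bs, e2, bs, (hc x z ⁅y, z⁆).mul_pow, (hc x y ⁅x, z⁆).mul_pow]
  have a1 := (hp x y z).eq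
  have a2 := (hp x y (⁅x, z⁆ ^ k)).eq
  have a3 := (hp y z (⁅x, y⁆ ^ k * ⁅x, z⁆ ^ k)).eq
  calc x * y * ⁅x, y⁆ ^ k * z * (⁅x, z⁆ ^ k * ⁅y, z⁆ ^ k)
      = x * y * (⁅x, y⁆ ^ k * z) * (⁅x, z⁆ ^ k * ⁅y, z⁆ ^ k) := by simp only [mul_assoc]
    _ = x * y * (z * ⁅x, y⁆ ^ k) * (⁅x, z⁆ ^ k * ⁅y, z⁆ ^ k) := by rw [a1]
    _ = x * y * z * ((⁅x, y⁆ ^ k * ⁅x, z⁆ ^ k) * ⁅y, z⁆ ^ k) := by simp only [mul_assoc]
    _ = x * y * z * (⁅y, z⁆ ^ k * (⁅x, y⁆ ^ k * ⁅x, z⁆ ^ k)) := by rw [a3]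
    _ = x * (y * z * ⁅y, z⁆ ^ k) * (⁅x, y⁆ ^ k * ⁅x, z⁆ ^ k) := by simp only [mul_assoc]

include hk in
theorem bs_comm (x y : G) : bs k x y = bs k y x := by
  have hc : ∀ a b c : G, Commute ⁅a, b⁆ c := fun a b c => comm_c h a b c
  have e0 : x * y = ⁅x, y⁆ * (y * x) := by simp only [commutatorElement_def]; group
  have e1 : ⁅y, x⁆ ^ k = ⁅x, y⁆ * ⁅x, y⁆ ^ k := by
    have : ⁅y, x⁆ = ⁅x, y⁆⁻¹ := (commutatorElement_inv x y).symm
    rw [this, inv_pow, inv_eq_iff_mul_eq_one, ← pow_succ', ← pow_add]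
    have := hk ⁅x, y⁆
    rw [two_mul, add_assoc] at this
    exact this
  rw [bs, bs, e1, e0, (hc x y (y * x)).eq, mul_assoc]

omit h in
theorem bs_central (x : G) {d : G} (hd : d ∈ Subgroup.center G) : bs k x d = x * d := by
  rw [bs, c_central_right hd, one_pow, mul_one]

omit h in
theorem bs_self (x : G) (n : ℕ) : bs k (x ^ n) x = x ^ (n + 1) := by
  have : ⁅x ^ n, x⁆ = 1 :=
    commutatorElement_eq_one_iff_mul_comm.2 ((Commute.refl x).pow_left n).eq
  rw [bs, this, one_pow, mul_one, pow_succ]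

/-- The additive group of a group of class at most two and odd exponent. -/
@[reducible] def baer : AddCommGroup G where
  add := bs k
  zero := 1
  neg x := x⁻¹
  nsmul n x := x ^ n
  zsmul n x := x ^ n
  add_assoc := bs_assoc h
  zero_add x := by
    show bs k 1 x = x
    rw [bs, commutatorElement_one_left, one_pow, mul_one, one_mul]
  add_zero x := by
    show bs k x 1 = x
    rw [bs, commutatorElement_one_right, one_pow, mul_one, mul_one]
  add_comm := bs_comm h hk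
  nsmul_zero x := pow_zero x
  nsmul_succ n x := (bs_self x n).symm
  neg_add_cancel x := by
    show bs k x⁻¹ x = 1
    rw [bs, c_inv_left h, commutatorElement_self, inv_one, one_pow, mul_one, inv_mul_cancel]
  zsmul_zero' x := zpow_zero x
  zsmul_succ' n x := by
    show x ^ (((n + 1 : ℕ) : ℤ)) = bs k (x ^ ((n : ℕ) : ℤ)) x
    rw [zpow_natCast, zpow_natCast, bs_self x n]
  zsmul_neg' n x := by
    show x ^ (Int.negSucc n) = (x ^ (((n + 1 : ℕ) : ℤ)))⁻¹
    rw [zpow_negSucc, zpow_natCast]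

end baer

end Pool.Agent.Run7.h128.Int
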